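import Mathlib
import Pool.Agent.Lib.MP_bdd9a3_nt.Explicit

namespace Pool.Agent.Results.MP_bdd9a3_nt.ConsecutiveSmooth

/-- For infinitely many `n`, every prime factor of `n (n + 1)` is at most
`n ^ (30 logloglog n / loglog n)`. -/
theorem result : ∀ N : ℕ, ∃ n : ℕ, N < n ∧ ∀ p : ℕ, p.Prime → p ∣ n * (n + 1) →
    (p : ℝ) ≤ (n : ℝ) ^ (30 * Real.log (Real.log (Real.log (n : ℝ))) /
      Real.log (Real.log (n : ℝ))) :=
  Pool.Agent.Lib.MP_bdd9a3_nt.asymptotic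

end Pool.Agent.Results.MP_bdd9a3_nt.ConsecutiveSmooth
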