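import Mathlib
import Pool.Agent.Lib.MP_bdd9a3_nt.UP.Final

set_option autoImplicit false

/-!
# An upper bound for the number of consecutive smooth numbers

For `A > 2` and `0 < c ≤ 1 / 2` the number of `(log x) ^ A`-smooth `n ≤ x` for which `n + 1` has a
`(log x) ^ A`-smooth divisor larger than `x ^ c` is at most `x ^ (1 - 1 / A - δ + o(1))` with
`δ = min (c / A) (c (1 - 2 / A)) ((1 - 1 / A) / 2 - c)`; the trivial bound has `δ = 0`.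
-/

theorem Pool.Agent.Results.MP_bdd9a3_nt.SmoothPairsUpper.result
    (A c ε : ℝ) (hA : 2 < A) (hc : 0 < c) (hc2 : c ≤ 1 / 2) (hε : 0 < ε) :
    ∃ X0 : ℕ, ∀ x : ℕ, X0 ≤ x →
      (({n : ℕ | 1 ≤ n ∧ n ≤ x ∧ (∀ p : ℕ, p.Prime → p ∣ n → (p : ℝ) ≤ Real.log x ^ A) ∧
        ∃ d : ℕ, d ∣ n + 1 ∧ (x : ℝ) ^ c < d ∧
          ∀ p : ℕ, p.Prime → p ∣ d → (p : ℝ) ≤ Real.log x ^ A}.ncard : ℕ) : ℝ) ≤
      (x : ℝ) ^ (1 - 1 / A - min (c / A) (min (c * (1 - 2 / A)) ((1 - 1 / A) / 2 - c)) + ε) :=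
  Pool.Agent.Lib.MP_bdd9a3_nt.UP.upper A c ε hA hc hc2 hε
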