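import Mathlib
import Pool.Agent.Lib.MP_bdd9a3_nt.SP.PartA

/-!
The `(log n)^A`-smooth part of `n (n + 1)` exceeds `n^(1 + c)` for infinitely many `n`,
for every `A > 2`.
-/

namespace Pool.Agent.Results.MP_bdd9a3_nt.SmoothPart

theorem result : ∀ A t : ℝ, 2 < A → A ≤ 3 → t < 10 * A / (7 * A + 6) → ∀ N : ℕ, ∃ n : ℕ,
    N < n ∧ ∃ m : ℕ, m ∣ n * (n + 1) ∧ (n : ℝ) ^ t < m ∧
      ∀ p : ℕ, p.Prime → p ∣ m → (p : ℝ) < (Real.log n) ^ A :=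
  fun A t hA hA3 ht N => Pool.Agent.Lib.MP_bdd9a3_nt.SP.part_a A t hA hA3 ht N

end Pool.Agent.Results.MP_bdd9a3_nt.SmoothPart
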