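import Mathlib
import Pool.Agent.Lib.MP_bdd9a3_nt.SP.Asy

/-!
Infinitely many `(log n)^A`-smooth `n` such that `n + 1` has a large `(log n)^A`-smooth divisor,
for every `A > 3`.
-/

namespace Pool.Agent.Results.MP_bdd9a3_nt.SmoothShift

theorem result : ∀ A c : ℝ, 3 < A → c < 1 / 2 - 3 / (4 * A) → ∀ N : ℕ, ∃ n : ℕ, N < n ∧
    (∀ p : ℕ, p.Prime → p ∣ n → (p : ℝ) < (Real.log n) ^ A) ∧
    ∃ d : ℕ, d ∣ n + 1 ∧ (n : ℝ) ^ c < d ∧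
      ∀ p : ℕ, p.Prime → p ∣ d → (p : ℝ) < (Real.log n) ^ A :=
  fun A c hA hc N => Pool.Agent.Lib.MP_bdd9a3_nt.SP.part_b A c hA hc N

end Pool.Agent.Results.MP_bdd9a3_nt.SmoothShift
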